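import Pool.Agent.Helper31.MHS.Goals
import Pool.Agent.Helper56.MH.OKM
import Pool.Agent.Helper11.MH.MCM
import Pool.Agent.Helper81.Sus2.DEC
import Pool.Agent.Helper94.OHS.CEL

/-!
# Project MHS, packet DSC: descriptions give configurations
-/

namespace Pool.Agent.Helper86.MHS

open Pool.Agent.Helper65.LinSpace Pool.Agent.Helper78.Mpc Pool.Agent.Helper28.Ram Finset Filter
open Pool.Agent.Helper20.MH (MultiHead Prm Sys Conf ParM FnsM GoodM InBox cz)
open Pool.Agent.Helper28.OHS (Box cellW cellN CEL_stmt)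
open Pool.Agent.Helper81.Sus2 (Decomp CodE)
open Pool.Agent.Helper31.MHS

theorem num_nil : num [] = 1 := rfl

theorem num_lt {w : List Bool} {S : ℕ} (h : w.length ≤ S) : num w < 2 ^ (S + 1) := by
  rw [← capN_num h]
  exact capN_lt _ _

theorem dsc_start {D K : ℕ} (A : MultiHead D K) (eA eN eW c0 : ℕ) (w y : List Bool) (P : WP)
    (hP : ParM A eA eN eW c0 w y P.m) (hl : A.start.length ≤ P.m.S) :
    RepW P 1 (A.conf w y 0) := by
  have hκ : 2 ^ (P.m.κ - 1) < 2 ^ P.m.κ :=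
    Nat.pow_lt_pow_right (by norm_num) (by have := hP.pos_κ; omega)
  have hcs : P.cs 1 = P.m.mk' (capN P.m.S P.m.st) (fun _ => 2 ^ (P.m.κ - 1)) := rfl
  refine ⟨one_ne_zero, ⟨?_, hl, ?_, ?_⟩⟩
  · rw [hcs, Pool.Agent.Helper11.MH.wq_mk P.m (capN_lt _ _), hP.h_st, capN_num hl]
    rfl
  · intro i k
    have hlt : (i : ℕ) * D + k < P.m.K * P.m.D := by
      rw [hP.h_K, hP.h_D]
      calc (i : ℕ) * D + k < i * D + D := by have := k.2; omega
        _ = (i + 1) * D := by ring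
        _ ≤ K * D := Nat.mul_le_mul_right _ i.2
    rw [hcs, Pool.Agent.Helper56.MH.cq_mk P.m (capN_lt _ _) (fun _ _ => hκ) hlt]
    show ((2 ^ (P.m.κ - 1) : ℕ) : ℤ) = 0 + 2 ^ (P.m.κ - 1)
    push_cast
    ring
  · intro i z _
    show capN P.m.S 1 = capN P.m.S (num [])
    rw [num_nil]

/-- the coordinates of the heads -/
noncomputable def fco {D K : ℕ} (κ : ℕ) (h : Fin K → Fin D → ℤ) (j : ℕ) : ℕ :=
  if hj : j / D < K ∧ j % D < D then (h ⟨j / D, hj.1⟩ ⟨j % D, hj.2⟩ + 2 ^ (κ - 1)).toNat else 0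

theorem fco_eq {D K : ℕ} (κ : ℕ) (h : Fin K → Fin D → ℤ) (i : Fin K) (k : Fin D) :
    fco κ h (i * D + k) = (h i k + 2 ^ (κ - 1)).toNat := by
  have hD : 0 < D := lt_of_le_of_lt (Nat.zero_le _) k.2
  have h1 : ((i : ℕ) * D + k) / D = i := by
    rw [mul_comm, Nat.mul_add_div hD, Nat.div_eq_of_lt k.2, add_zero]
  have h2 : ((i : ℕ) * D + k) % D = k := by
    rw [mul_comm, Nat.mul_add_mod, Nat.mod_eq_of_lt k.2]
  unfold fco
  rw [dif_pos ⟨by rw [h1]; exact i.2, by rw [h2]; exact k.2⟩]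
  have e1 : ∀ hh, (⟨((i : ℕ) * D + k) / D, hh⟩ : Fin K) = i := fun _ => Fin.ext h1
  have e2 : ∀ hh, (⟨((i : ℕ) * D + k) % D, hh⟩ : Fin D) = k := fun _ => Fin.ext h2
  rw [e1, e2]

/-- the name of a cell of the box -/
theorem nm_eq (hC : CEL_stmt) {D K : ℕ} (P : WP) (hD : P.m.D = D) (hK : P.m.K = K)
    (hκ : 0 < P.m.κ) (i : ℕ) (hi : i < K) (p : Fin D → ℤ) (hp : InBox P.m.κ p) :
    P.nm (cz P.m i p) = num (nameW i p) := by
  have hi' : i < P.m.K + 1 := by omega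
  have hp' : Pool.Agent.Helper65.OH.InBox P.m.κ p := hp
  have e0 : cz P.m i p =
      i + (P.m.K + 1) * tab (2 ^ P.m.κ) D (Pool.Agent.Helper65.OH.co P.m.κ p) := rfl
  have e1 : cz P.m i p % (P.m.K + 1) = i := by
    rw [e0, Nat.add_mul_mod_self_left, Nat.mod_eq_of_lt hi']
  have e2 : cz P.m i p / (P.m.K + 1) =
      tab (2 ^ P.m.κ) D (Pool.Agent.Helper65.OH.co P.m.κ p) := by
    rw [e0, Nat.add_mul_div_left _ _ (by positivity), Nat.div_eq_of_lt hi', zero_add]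
  have hco : ∀ k < D, Pool.Agent.Helper65.OH.co P.m.κ p k < 2 ^ P.m.κ := by
    intro k hk
    unfold Pool.Agent.Helper65.OH.co
    rw [dif_pos hk]
    have h1 := (hp ⟨k, hk⟩).1
    have h2 := (hp ⟨k, hk⟩).2
    have h3 : ((p ⟨k, hk⟩ + 2 ^ (P.m.κ - 1)).toNat : ℤ) < ((2 ^ P.m.κ : ℕ) : ℤ) := by
      rw [Int.toNat_of_nonneg h1]
      push_cast
      exact h2
    exact_mod_cast h3
  unfold WP.nm nameW
  rw [e1, e2, hD, ← catN_num, ← sdN_num, ← bitsN_eq, ← hC.name P.m.κ p hκ hp']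
  congr 1
  exact hC.congr P.m.κ D _ _ fun k hk => dig_tab hco hk

theorem dsc_short (hC : CEL_stmt) {D K : ℕ} (A : MultiHead D K) (E : Decomp)
    (eA eN eW c0 : ℕ) (w y : List Bool) (P : WP) (hP : ParM A eA eN eW c0 w y P.m)
    (hE : CodE E P.e) (b t z : ℕ) (hb : P.m.κ = b + 1)
    (hq : (A.conf w y t).q.length ≤ P.m.S) (hbox : ∀ i, Box b ((A.conf w y t).h i))
    (hS : Short A E w y b P.Z z t) :
    ∃ d, 2 ≤ d ∧ d < P.nz z ∧ RepW P d (A.conf w y t) := by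
  obtain ⟨D₀, hD₀, hsay⟩ := hS
  have hκ1 : P.m.κ - 1 = b := by omega
  have h2b : (2 : ℤ) ^ (b + 1) = 2 * 2 ^ b := by ring
  have hpκ : 0 < 2 ^ P.m.κ := by positivity
  -- the coordinates of the heads
  have hco : ∀ (i : Fin K) (k : Fin D),
      ((fco P.m.κ (A.conf w y t).h (i * D + k) : ℕ) : ℤ) =
      (A.conf w y t).h i k + 2 ^ (P.m.κ - 1) := by
    intro i k
    rw [fco_eq, hκ1]
    have := (hbox i k).1
    rw [Int.toNat_of_nonneg (by linarith)]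
  have hcolt : ∀ j < P.m.K * P.m.D, fco P.m.κ (A.conf w y t).h j < 2 ^ P.m.κ := by
    intro j _
    unfold fco
    split_ifs with hj
    · have h1 := (hbox ⟨j / D, hj.1⟩ ⟨j % D, hj.2⟩).1
      have h2 := (hbox ⟨j / D, hj.1⟩ ⟨j % D, hj.2⟩).2
      have h3 : (((A.conf w y t).h ⟨j / D, hj.1⟩ ⟨j % D, hj.2⟩ + 2 ^ (P.m.κ - 1)).toNat : ℤ) <
          ((2 ^ P.m.κ : ℕ) : ℤ) := by
        rw [hκ1, Int.toNat_of_nonneg (by linarith), hb]
        push_cast
        rw [h2b]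
        linarith
      exact_mod_cast h3
    · exact hpκ
  set q : ℕ := P.m.mk' (num (A.conf w y t).q) (fco P.m.κ (A.conf w y t).h) with hqdef
  have g1 : q < 2 ^ P.sg := Pool.Agent.Helper56.MH.mk_lt P.m (num_lt hq) hcolt
  have g2 : P.m.wq q = num (A.conf w y t).q := Pool.Agent.Helper11.MH.wq_mk P.m (num_lt hq) _
  have hpos : 0 < 2 ^ P.sg := by positivity
  have hN := num_lt hD₀
  have hNpos := num_pos D₀
  have hd2 : 2 + (q + 2 ^ P.sg * num D₀) - 2 = q + 2 ^ P.sg * num D₀ := by omega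
  have hmod : (2 + (q + 2 ^ P.sg * num D₀) - 2) % 2 ^ P.sg = q := by
    rw [hd2, Nat.add_mul_mod_self_left, Nat.mod_eq_of_lt g1]
  have hdiv : (2 + (q + 2 ^ P.sg * num D₀) - 2) / 2 ^ P.sg = num D₀ := by
    rw [hd2, Nat.add_mul_div_left _ _ hpos, Nat.div_eq_of_lt g1, zero_add]
  have hge : 1 ≤ 2 ^ P.sg * num D₀ := Nat.one_le_iff_ne_zero.2 (by positivity)
  have hne1 : 2 + (q + 2 ^ P.sg * num D₀) ≠ 1 := by omega
  have hcs : P.cs (2 + (q + 2 ^ P.sg * num D₀)) = q := by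
    unfold WP.cs
    rw [eq01_ne hne1, ifz_zero, hmod]
  refine ⟨2 + (q + 2 ^ P.sg * num D₀), by omega, ?_, ?_, ⟨?_, hq, ?_, ?_⟩⟩
  · unfold WP.nz
    have h1 : q + 2 ^ P.sg * num D₀ < 2 ^ P.sg * 2 ^ (z + 1) := by
      calc q + 2 ^ P.sg * num D₀ < 2 ^ P.sg + 2 ^ P.sg * num D₀ := by omega
        _ = 2 ^ P.sg * (num D₀ + 1) := by ring
        _ ≤ 2 ^ P.sg * 2 ^ (z + 1) := Nat.mul_le_mul_left _ hN
    omega
  · omega
  · rw [hcs]
    exact g2
  · intro i k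
    have hlt : (i : ℕ) * D + k < P.m.K * P.m.D := by
      rw [hP.h_K, hP.h_D]
      calc (i : ℕ) * D + k < i * D + D := by have := k.2; omega
        _ = (i + 1) * D := by ring
        _ ≤ K * D := Nat.mul_le_mul_right _ i.2
    rw [hcs, Pool.Agent.Helper56.MH.cq_mk P.m (num_lt hq) hcolt hlt]
    exact hco i k
  · intro i p hp
    have hbp : Box b p := by
      intro k
      have h1 := hp k
      rw [hκ1, hb, h2b] at h1
      constructor
      · linarith [h1.1]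
      · linarith [h1.2]
    have h1 := (Pool.Agent.Helper81.Sus2.dec E w y P.e hE hP.h_x hP.h_y D₀
      (nameW i p) ((A.conf w y t).M i p)).1 (hsay i p hbp)
    unfold WP.ini WP.cn
    rw [eq01_ne hne1, ifz_zero, hdiv, nm_eq hC P hP.h_D hP.h_K hP.pos_κ i i.2 p hp, h1]

/-- Packet MHS-DSC. -/
theorem dsc : DSC_stmt where
  start := dsc_start
  short := dsc_short Pool.Agent.Helper94.OHS.cel

end Pool.Agent.Helper86.MHS
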